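import Pool.Agent.TH174.Gon.Curve
import Pool.Agent.TH174.Gon.Low

/-! Gonality of preimages of lines under maps of minimal degree: the `K3` surface
`∑ x_i y_i ^ 2 = ∑ x_i ^ 2 y_i = 0` in `ℙ² × ℙ²` over an algebraically closed field of
characteristic `2`, with its first projection to the plane. -/

set_option autoImplicit false

namespace Pool.Agent.Results.MP_83f7cc_ag.CharTwo

open MvPolynomial Pool.Agent.TH174.Gon

/-- Over every algebraically closed field `k` of characteristic `2` the surface
`X : ∑ x_i y_i ^ 2 = ∑ x_i ^ 2 y_i = 0` in `ℙ² × ℙ²` is smooth and integral; its first projection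
`ψ` to the plane is dominant of degree `2`, every dominant rational map from `X` to the plane has
degree at least `2`, and the curve `C_L = ψ⁻¹(L)` is integral of gonality `1` for a general line
`L`. -/
theorem result (k : Type) [Field k] [IsAlgClosed k] [CharP k 2] :
    (∀ z ∈ surf k, LinearIndependent k ![grad (F₁ k) z, grad (F₂ k) z]) ∧
    ∃ (K : Type) (_ : Field K) (_ : Algebra k K) (ξ η : Fin 3 → K),
      IsFunctionField (surf k) K ξ η ∧
      IsDominant k (fun i : Fin 2 => ξ i.succ / ξ 0) ∧
      mapDegree k (fun i : Fin 2 => ξ i.succ / ξ 0) = 2 ∧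
      (∀ φ : Fin 2 → K, IsDominant k φ → 2 ≤ mapDegree k φ) ∧
      ∃ P : MvPolynomial (Fin 3) k, P ≠ 0 ∧ ∀ c : Fin 3 → k, eval c P ≠ 0 →
        ∃ (K' : Type) (_ : Field K') (_ : Algebra k K') (ξ' η' : Fin 3 → K'),
          IsFunctionField (lineCurve c) K' ξ' η' ∧ HasGonality k K' 1 := by
  haveI : Infinite k := IsAlgClosed.instInfinite
  haveI : PerfectRing k 2 := inferInstance
  refine ⟨grad_indep, K k, inferInstance, inferInstance, ξ k, η k, isFunctionField k,
    ψ_dominant k, mapDegree_ψ k, two_le_mapDegree k, moore k, moore_ne_zero, ?_⟩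
  intro c hc
  obtain ⟨d₀, d₁, h⟩ := curveField c hc
  exact ⟨N d₀ d₁, inferInstance, inferInstance, ξN d₀ d₁, ηN d₀ d₁, h,
    hasGonality_one k (N d₀ d₁) (t2_mem d₀ d₁)⟩

end Pool.Agent.Results.MP_83f7cc_ag.CharTwo
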